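import Mathlib
import Pool.Agent.Helper19.FinalNum

/-!
# Anticoncentration of the isomorphism type of a uniform random spanning tree

For every `ε > 0` and every sufficiently large `d`, for every connected `d`-regular graph `G` on
`n` vertices and every tree `T` on `n` vertices, the proportion of spanning trees of `G` which are
isomorphic to `T` is at most `exp (-(1 - ε) n)`.
-/

namespace Pool.Agent.Results.MP_148fc2_co.SpanningTreeAnticoncentration

open Pool.Agent.Helper19

theorem result : ∀ ε : ℝ, 0 < ε → ∃ D : ℝ, 0 < D ∧ ∀ d : ℕ, D ≤ (d : ℝ) →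
    ∀ (n : ℕ) (G T : SimpleGraph (Fin n)), G.Connected → (∀ v, (G.neighborSet v).ncard = d) →
      T.IsTree →
      (({F : SimpleGraph (Fin n) | F ≤ G ∧ F.IsTree ∧ Nonempty (F ≃g T)}.ncard : ℕ) : ℝ) /
        (({F : SimpleGraph (Fin n) | F ≤ G ∧ F.IsTree}.ncard : ℕ) : ℝ) ≤
      Real.exp (-(1 - ε) * n) := by
  classical
  intro ε hε
  obtain ⟨t0, ht0⟩ : ∃ t0 : ℕ, (241 / ε) ^ 2 ≤ (t0 : ℝ) := exists_nat_ge _
  set t1 := max t0 3 with ht1
  refine ⟨((t1 ^ 8 : ℕ) : ℝ), ?_, ?_⟩
  · have : 0 < t1 := by omega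
    positivity
  intro d hd n G T hG hreg hT
  have hd' : t1 ^ 8 ≤ d := by exact_mod_cast hd
  obtain ⟨t, h1, h2⟩ := exists_t d
  have htt : t1 ≤ t := by
    by_contra h
    push Not at h
    have : (t + 1) ^ 8 ≤ t1 ^ 8 := Nat.pow_le_pow_left (by omega) 8
    omega
  have ht3 : 3 ≤ t := by omega
  have htt0 : (t0 : ℝ) ≤ t := by exact_mod_cast (by omega : t0 ≤ t)
  have hd0 : 0 < d := lt_of_lt_of_le (by positivity) h1
  have htr : (3 : ℝ) ≤ t := by exact_mod_cast ht3
  have htp : (0 : ℝ) < t := by linarith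
  -- neighbourhoods
  set N : Fin n → Finset (Fin n) := fun x => Finset.univ.filter (fun y => G.Adj x y) with hNdef
  have hNG : ∀ x y, y ∈ N x ↔ G.Adj x y := by intro x y; simp [N]
  have hN : ∀ x, (N x).card = d := by
    intro x
    rw [← hreg x, Set.ncard_eq_toFinset_card']
    congr 1
    ext y
    simp [N]
  have hsym : ∀ x y, x ∈ N y ↔ y ∈ N x := by
    intro x y; rw [hNG, hNG]; exact G.adj_comm _ _
  -- size
  have hdn : d ≤ n := by
    obtain ⟨v⟩ := hG.nonempty
    rw [← hN v]
    calc (N v).card ≤ (Finset.univ : Finset (Fin n)).card := Finset.card_le_card (Finset.subset_univ _)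
      _ = n := by simp
  -- the tree
  obtain ⟨R, hR⟩ := exists_rtree T hT.connected
  set L := R.toLev t with hL
  have hB := BB_le t d n ((Finset.univ.filter (fun a => L.exc (t ^ 4) a)).card) ht3 h1 h2 hdn (by
    have := R.card_exc_le t (t ^ 4)
    rw [Fintype.card_fin] at this
    exact this)
  have hlow := log_card_strees_ge G hG N hNG d hd0 hN (t ^ 4) (1 / (t : ℝ)) (by positivity)
    (by rw [div_lt_one htp]; linarith)
  rw [Fintype.card_fin] at hlow
  have hlow2 := lower_le t d n ht3 h1 h2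
  have herr := err_small ε hε t ht3 (le_trans ht0 htt0)
  -- cardinalities
  have hden : {F : SimpleGraph (Fin n) | F ≤ G ∧ F.IsTree}.ncard = (strees G).card := by
    rw [← Set.ncard_coe_finset]
    congr 1
    ext F
    rw [Finset.mem_coe, mem_strees]
    exact Iff.rfl
  rw [hden]
  have hτ : 0 < (strees G).card := by
    obtain ⟨F, h1, h2⟩ := hG.exists_isTree_le
    exact Finset.card_pos.2 ⟨F, (mem_strees G F).2 ⟨h1, h2⟩⟩
  have hτr : (0 : ℝ) < ((strees G).card : ℝ) := by exact_mod_cast hτ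
  -- copies inject into embeddings
  set C : Set (SimpleGraph (Fin n)) := {F | F ≤ G ∧ F.IsTree ∧ Nonempty (F ≃g T)} with hC
  have hcopy : C.ncard ≤ (L.emb N).card := by
    have hex : ∀ F : SimpleGraph (Fin n), ∃ φ : Fin n ≃ Fin n, F ∈ C →
        φ ∈ L.emb N ∧ ∀ x y, F.Adj (φ x) (φ y) ↔ T.Adj x y := by
      intro F
      by_cases hF : F ∈ C
      · obtain ⟨hF1, _, ⟨ψ⟩⟩ := hF
        refine ⟨ψ.symm.toEquiv, fun _ => ⟨?_, ?_⟩⟩
        · rw [LevTree.mem_emb]
          intro a ha
          have h3 : T.Adj (R.par a) a := hR a ha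
          have h4 : F.Adj (ψ.symm (R.par a)) (ψ.symm a) := ψ.symm.map_adj_iff.2 h3
          show ψ.symm (R.par a) ∈ N (ψ.symm a)
          rw [hNG]
          exact (hF1 h4).symm
        · intro x y
          exact ψ.symm.map_adj_iff
      · exact ⟨Equiv.refl _, fun h => absurd h hF⟩
    choose Φ hΦ using hex
    rw [← Set.ncard_coe_finset]
    apply Set.ncard_le_ncard_of_injOn Φ
    · intro F hF
      exact (hΦ F hF).1
    · intro F hF F' hF' h
      have h3 := (hΦ F hF).2
      have h4 := (hΦ F' hF').2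
      ext x y
      have h5 := h3 ((Φ F).symm x) ((Φ F).symm y)
      have h6 := h4 ((Φ F).symm x) ((Φ F).symm y)
      rw [← h] at h6
      rw [Equiv.apply_symm_apply, Equiv.apply_symm_apply] at h5 h6
      exact h5.trans h6.symm
  have hcopyr : (C.ncard : ℝ) ≤ ((L.emb N).card : ℝ) := by exact_mod_cast hcopy
  by_cases hne : (L.emb N).Nonempty
  · have hup := L.log_card_emb_le t (t ^ 4) t d (1 / (t : ℝ) ^ 2) (1 / (t : ℝ)) (by omega) hd0
      (Nat.one_le_pow _ _ (by omega)) (by positivity) (by positivity)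
      (by rw [div_lt_one htp]; linarith) (fun a => R.lev_le t a) N hN hsym
      (bl_bound d _ hd0 (hbl_of_t t d ht3 h1 h2)) hne
    rw [Fintype.card_fin] at hup
    have hEpos : (0 : ℝ) < ((L.emb N).card : ℝ) := by exact_mod_cast hne.card_pos
    have hn0 : (0 : ℝ) ≤ n := Nat.cast_nonneg _
    have hfin : Real.log ((L.emb N).card : ℝ) - Real.log ((strees G).card : ℝ) ≤
        -(1 - ε) * n := by
      have e1 : (n : ℝ) * ((95 * Real.log ((t : ℝ) + 1) + 7) / t) +
          n * ((20 * Real.log ((t : ℝ) + 1) + 4) / t) =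
          n * ((115 * Real.log ((t : ℝ) + 1) + 11) / t) := by ring
      have e2 := mul_le_mul_of_nonneg_left herr hn0
      linarith
    calc (C.ncard : ℝ) / ((strees G).card : ℝ) ≤ ((L.emb N).card : ℝ) / ((strees G).card : ℝ) := by
          gcongr
      _ = Real.exp (Real.log ((L.emb N).card : ℝ) - Real.log ((strees G).card : ℝ)) := by
          rw [Real.exp_sub, Real.exp_log hEpos, Real.exp_log hτr]
      _ ≤ _ := Real.exp_le_exp.2 hfin
  · rw [Finset.not_nonempty_iff_eq_empty] at hne
    rw [hne, Finset.card_empty, Nat.cast_zero] at hcopyr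
    have : (C.ncard : ℝ) = 0 := le_antisymm hcopyr (Nat.cast_nonneg _)
    rw [this, zero_div]
    exact (Real.exp_pos _).le

end Pool.Agent.Results.MP_148fc2_co.SpanningTreeAnticoncentration
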